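import Mathlib

/-!
# The norm graph lemma with the sharp constant

Let `K` be a field and let `a` be a `t × t` matrix over `K` whose columns have pairwise distinct
entries. For every `b` the system `∏ j, (x j - a i j) = b i` (`i < t`) has at most `t!` solutions
(Kollár, Rónyai and Szabó). The proof here is elementary: the Bezoutian of the system does not
depend on `b`, for `b = 0` it is seen to be nondegenerate, and the solutions of the system give
eigenvectors, with different eigenvalues, of an operator on a space of dimension `t!`.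
-/

set_option autoImplicit false

namespace Pool.Agent.T6.H75.NormLemma

open Finset Matrix

variable {K : Type*} [Field K] {t : ℕ}

/-- the product of the first factors, in the variables `y` -/
def U (a : Fin t → Fin t → K) (i s : Fin t) (y : Fin t → K) : K :=
  ∏ j ∈ univ.filter (· < s), (y j - a i j)

/-- the product of the last factors, in the variables `x` -/
def W (a : Fin t → Fin t → K) (i s : Fin t) (x : Fin t → K) : K :=
  ∏ j ∈ univ.filter (s < ·), (x j - a i j)

/-- the left hand side minus the right hand side of the system -/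
def F (a : Fin t → Fin t → K) (b : Fin t → K) (x : Fin t → K) (i : Fin t) : K :=
  ∏ j, (x j - a i j) - b i

/-- the matrix of divided differences -/
def D (a : Fin t → Fin t → K) (x y : Fin t → K) : Matrix (Fin t) (Fin t) K :=
  fun s i => W a i s x * U a i s y

theorem tele (a : Fin t → Fin t → K) (b : Fin t → K) (x y : Fin t → K) :
    F a b x - F a b y = (x - y) ᵥ* D a x y := by
  ext i
  have h := Finset.prod_add_ordered univ (fun j => x j - a i j) (fun j => y j - x j)
  have h1 : ∀ j, (x j - a i j) + (y j - x j) = y j - a i j := fun j => by ring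
  simp only [h1] at h
  simp only [F, Pi.sub_apply, vecMul, dotProduct, D, h, U, W]
  rw [sub_sub_sub_cancel_right, sub_add_cancel_left, ← Finset.sum_neg_distrib]
  apply Finset.sum_congr rfl
  intro s _
  ring

/-- the Bezoutian with a linear form `u` -/
noncomputable def Bg (a : Fin t → Fin t → K) (b u : Fin t → K) (x y : Fin t → K) : K :=
  (u ⬝ᵥ x) * (D a x y).det - F a b x ⬝ᵥ cramer (D a x y) u

theorem Bg_eq (a : Fin t → Fin t → K) (b u : Fin t → K) (x y : Fin t → K) :
    Bg a b u x y = (u ⬝ᵥ y) * (D a x y).det - F a b y ⬝ᵥ cramer (D a x y) u := by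
  have h1 : (F a b x - F a b y) ⬝ᵥ cramer (D a x y) u = (D a x y).det * ((x - y) ⬝ᵥ u) := by
    rw [tele, ← dotProduct_mulVec, mulVec_cramer, dotProduct_smul, smul_eq_mul]
  rw [sub_dotProduct, sub_dotProduct, dotProduct_comm x u, dotProduct_comm y u] at h1
  unfold Bg
  linear_combination -h1

theorem Bg_solution (a : Fin t → Fin t → K) (b u : Fin t → K) (x y : Fin t → K)
    (hy : F a b y = 0) : Bg a b u x y = (u ⬝ᵥ y) * (D a x y).det := by
  rw [Bg_eq, hy, zero_dotProduct, sub_zero]

/-! ### The space of functions -/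

/-- the space of functions of degree less than `t - j` in the variable `j` -/
def V (K : Type*) [Field K] (t : ℕ) : Submodule K ((Fin t → K) → K) :=
  Submodule.span K (Set.range fun e : (j : Fin t) → Fin (t - j) => fun y : Fin t → K =>
    ∏ j, y j ^ (e j : ℕ))

theorem finrank_V : Module.finrank K (V K t) ≤ t.factorial := by
  refine (finrank_range_le_card _).trans ?_
  rw [Fintype.card_pi]
  simp only [Fintype.card_fin]
  have h : ∀ n : ℕ, ∏ j : Fin n, (n - (j : ℕ)) = n.factorial := by
    intro n
    rw [Fin.prod_univ_eq_prod_range (fun j => n - j) n]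
    rw [← Finset.prod_range_reflect, ← Finset.prod_range_add_one_eq_factorial]
    apply Finset.prod_congr rfl
    intro j hj
    rw [mem_range] at hj
    omega
  rw [h]

theorem mem_V (P : Fin t → Polynomial K) (hP : ∀ j, (P j).natDegree < t - j) :
    (fun y : Fin t → K => ∏ j, (P j).eval (y j)) ∈ V K t := by
  have h1 : (fun y : Fin t → K => ∏ j, (P j).eval (y j)) =
      ∑ e : (j : Fin t) → Fin (t - j), (∏ j, (P j).coeff (e j)) •
        fun y : Fin t → K => ∏ j, y j ^ (e j : ℕ) := by
    ext y
    have h2 : ∀ j : Fin t, (P j).eval (y j) =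
        ∑ k : Fin (t - j), (P j).coeff k * y j ^ (k : ℕ) := by
      intro j
      rw [Polynomial.eval_eq_sum_range' (hP j),
        Fin.sum_univ_eq_sum_range (fun k => (P j).coeff k * y j ^ k)]
    simp only [h2]
    rw [Finset.prod_univ_sum, Finset.sum_apply, Fintype.piFinset_univ]
    apply Finset.sum_congr rfl
    intro e _
    rw [Pi.smul_apply, smul_eq_mul, Finset.prod_mul_distrib]
  rw [h1]
  exact Submodule.sum_mem _ fun e _ =>
    Submodule.smul_mem _ _ (Submodule.subset_span ⟨e, rfl⟩)

/-- determinants whose entries in the columns in `T` are multiples of `U` and constants in the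
other columns -/
theorem det_mem (a : Fin t → Fin t → K) (c : Fin t → Fin t → K) (T : Finset (Fin t)) :
    (fun y : Fin t → K => (Matrix.of fun s i => c s i * (if i ∈ T then U a i s y else 1) :
      Matrix (Fin t) (Fin t) K).det) ∈ V K t := by
  have h : (fun y : Fin t → K => (Matrix.of fun s i => c s i * (if i ∈ T then U a i s y else 1) :
      Matrix (Fin t) (Fin t) K).det) = ∑ σ : Equiv.Perm (Fin t),
      (((Equiv.Perm.sign σ : ℤ) : K) * ∏ i, c (σ i) i) • fun y : Fin t → K =>
        ∏ j, (∏ i ∈ T.filter (fun i => j < σ i), (Polynomial.X - Polynomial.C (a i j))).eval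
          (y j) := by
    ext y
    rw [Matrix.det_apply', Finset.sum_apply]
    apply Finset.sum_congr rfl
    intro σ _
    rw [Pi.smul_apply, smul_eq_mul, mul_assoc]
    congr 1
    simp only [Matrix.of_apply]
    rw [Finset.prod_mul_distrib]
    congr 1
    rw [← Finset.prod_filter]
    simp only [Polynomial.eval_prod, Polynomial.eval_sub, Polynomial.eval_X, Polynomial.eval_C, U]
    refine (Finset.prod_comm' ?_)
    intro j i
    simp only [mem_univ, mem_filter, true_and, and_true]
  rw [h]
  refine Submodule.sum_mem _ fun σ _ => Submodule.smul_mem _ _ (mem_V _ fun j => ?_)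
  refine lt_of_le_of_lt (Polynomial.natDegree_prod_le _ _) ?_
  simp only [Polynomial.natDegree_X_sub_C]
  rw [Finset.sum_const, smul_eq_mul, mul_one]
  have h3 : (T.filter (fun i => j < σ i)).card ≤ (univ.filter (fun s : Fin t => j < s)).card := by
    apply Finset.card_le_card_of_injOn σ
    · intro i hi
      rw [mem_coe, mem_filter] at hi ⊢
      refine ⟨mem_univ _, ?_⟩
      exact hi.2
    · exact σ.injective.injOn
  have h4 : (univ.filter (fun s : Fin t => j < s)).card = t - 1 - j := by
    have : univ.filter (fun s : Fin t => j < s) = Finset.Ioi j := by ext; simp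
    rw [this, Fin.card_Ioi]
  have := j.2
  omega

theorem B_mem (a : Fin t → Fin t → K) (x : Fin t → K) :
    (fun y => (D a x y).det) ∈ V K t := by
  have h := det_mem a (fun s i => W a i s x) univ
  convert h using 2 with y
  congr 1
  ext s i
  simp [D]

theorem cr_mem (a : Fin t → Fin t → K) (u x : Fin t → K) (i₀ : Fin t) :
    (fun y => cramer (D a x y) u i₀) ∈ V K t := by
  have h := det_mem a (fun s i => if i = i₀ then u s else W a i s x) (univ.erase i₀)
  convert h using 2 with y
  rw [cramer_apply]
  congr 1
  ext s i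
  by_cases hi : i = i₀
  · subst hi
    simp
  · simp [hi, D]

theorem Bg_mem (a : Fin t → Fin t → K) (b u x : Fin t → K) :
    (fun y => Bg a b u x y) ∈ V K t := by
  have h : (fun y => Bg a b u x y) = (u ⬝ᵥ x) • (fun y => (D a x y).det) -
      ∑ i, F a b x i • fun y => cramer (D a x y) u i := by
    ext y
    simp only [Bg, dotProduct, Pi.sub_apply, Pi.smul_apply, smul_eq_mul, Finset.sum_apply]
  rw [h]
  exact Submodule.sub_mem _ (Submodule.smul_mem _ _ (B_mem a x))
    (Submodule.sum_mem _ fun i _ => Submodule.smul_mem _ _ (cr_mem a u x i))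

theorem one_mem_V : (fun _ : Fin t → K => (1 : K)) ∈ V K t := by
  have h := mem_V (K := K) (t := t) (fun _ => 1) (fun j => by
    have := j.2
    simp only [Polynomial.natDegree_one]
    omega)
  simpa using h

/-! ### The permutation points -/

/-- the solutions for `b = 0` -/
def pp (a : Fin t → Fin t → K) (π : Equiv.Perm (Fin t)) : Fin t → K := fun j => a (π j) j

theorem pp_sol (a : Fin t → Fin t → K) (π : Equiv.Perm (Fin t)) : F a 0 (pp a π) = 0 := by
  ext i
  simp only [F, pp, Pi.zero_apply, sub_zero]
  apply Finset.prod_eq_zero (mem_univ (π.symm i))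
  simp

omit [Field K] in
theorem pp_inj {a : Fin t → Fin t → K} (ha : ∀ j, Function.Injective fun i => a i j) :
    Function.Injective (pp a) := by
  intro π σ h
  ext j
  have h1 := congrFun h j
  simp only [pp] at h1
  rw [ha j h1]

theorem det_ne {a : Fin t → Fin t → K} (ha : ∀ j, Function.Injective fun i => a i j)
    {π σ : Equiv.Perm (Fin t)} (h : π ≠ σ) : (D a (pp a π) (pp a σ)).det = 0 := by
  rw [← Matrix.exists_vecMul_eq_zero_iff]
  refine ⟨pp a π - pp a σ, sub_ne_zero.2 fun h1 => h (pp_inj ha h1), ?_⟩
  rw [← tele a 0, pp_sol, pp_sol, sub_zero]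

theorem det_self {a : Fin t → Fin t → K} (ha : ∀ j, Function.Injective fun i => a i j)
    (π : Equiv.Perm (Fin t)) : (D a (pp a π) (pp a π)).det ≠ 0 := by
  have h1 : ∀ s i, D a (pp a π) (pp a π) s i = ∏ j ∈ univ.erase s, (a (π j) j - a i j) := by
    intro s i
    simp only [D, U, W, pp]
    rw [← Finset.prod_union]
    · apply Finset.prod_congr _ fun _ _ => rfl
      ext j
      simp only [mem_union, mem_filter, mem_univ, true_and, mem_erase, and_true]
      constructor
      · rintro (h | h)
        · exact h.ne'
        · exact h.ne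
      · intro h
        rcases lt_or_gt_of_ne h with h | h
        · exact Or.inr h
        · exact Or.inl h
    · rw [Finset.disjoint_left]
      intro j hj hj'
      simp only [mem_filter, mem_univ, true_and] at hj hj'
      exact absurd hj (lt_asymm hj')
  have h2 : ((D a (pp a π) (pp a π)).submatrix id π) = Matrix.diagonal fun s =>
      ∏ j ∈ univ.erase s, (a (π j) j - a (π s) j) := by
    ext s i
    rw [Matrix.submatrix_apply, id, h1]
    by_cases hsi : s = i
    · subst hsi
      rw [Matrix.diagonal_apply_eq]
    · rw [Matrix.diagonal_apply_ne _ hsi]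
      apply Finset.prod_eq_zero (mem_erase.2 ⟨Ne.symm hsi, mem_univ _⟩)
      ring
  have h3 := Matrix.det_permute' π (D a (pp a π) (pp a π))
  rw [h2, Matrix.det_diagonal] at h3
  intro h4
  rw [h4, mul_zero, Finset.prod_eq_zero_iff] at h3
  obtain ⟨s, _, hs⟩ := h3
  rw [Finset.prod_eq_zero_iff] at hs
  obtain ⟨j, hj, hj2⟩ := hs
  rw [sub_eq_zero] at hj2
  have h5 := ha j hj2
  have h6 := π.injective h5
  exact (mem_erase.1 hj).1 h6

/-- interpolation: a function in `V` is determined by the values at the permutation points -/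
theorem interp {a : Fin t → Fin t → K} (ha : ∀ j, Function.Injective fun i => a i j)
    (h : (Fin t → K) → K) (hh : h ∈ V K t) (y : Fin t → K) :
    h y = ∑ σ : Equiv.Perm (Fin t), h (pp a σ) / (D a (pp a σ) (pp a σ)).det *
      (D a (pp a σ) y).det := by
  have : Module.Finite K (V K t) := by
    unfold V
    exact Module.Finite.span_of_finite K (Set.finite_range _)
  let E : V K t →ₗ[K] (Equiv.Perm (Fin t) → K) :=
    (LinearMap.pi fun σ => LinearMap.proj (pp a σ)) ∘ₗ (V K t).subtype
  have hE : ∀ (v : V K t) σ, E v σ = (v : (Fin t → K) → K) (pp a σ) := fun v σ => rfl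
  have hval : ∀ (c : Equiv.Perm (Fin t) → K) τ,
      ∑ σ : Equiv.Perm (Fin t), c σ / (D a (pp a σ) (pp a σ)).det *
        (D a (pp a σ) (pp a τ)).det = c τ := by
    intro c τ
    rw [Finset.sum_eq_single τ]
    · exact div_mul_cancel₀ _ (det_self ha τ)
    · intro σ _ hσ
      rw [det_ne ha hσ, mul_zero]
    · intro h
      exact absurd (mem_univ _) h
  have hmem : ∀ c : Equiv.Perm (Fin t) → K, (fun y => ∑ σ : Equiv.Perm (Fin t),
      c σ / (D a (pp a σ) (pp a σ)).det * (D a (pp a σ) y).det) ∈ V K t := by
    intro c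
    have : (fun y => ∑ σ : Equiv.Perm (Fin t),
        c σ / (D a (pp a σ) (pp a σ)).det * (D a (pp a σ) y).det) =
        ∑ σ : Equiv.Perm (Fin t), (c σ / (D a (pp a σ) (pp a σ)).det) •
          fun y => (D a (pp a σ) y).det := by
      ext y
      simp only [Finset.sum_apply, Pi.smul_apply, smul_eq_mul]
    rw [this]
    exact Submodule.sum_mem _ fun σ _ => Submodule.smul_mem _ _ (B_mem a _)
  have hsurj : Function.Surjective E := by
    intro c
    refine ⟨⟨_, hmem c⟩, ?_⟩
    ext τ
    rw [hE]
    exact hval c τ
  have hfr : Module.finrank K (V K t) = Module.finrank K (Equiv.Perm (Fin t) → K) := by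
    apply le_antisymm
    · rw [Module.finrank_fintype_fun_eq_card, Fintype.card_perm, Fintype.card_fin]
      exact finrank_V
    · exact LinearMap.finrank_le_finrank_of_surjective hsurj
  have hinj : Function.Injective E := (LinearMap.injective_iff_surjective_of_finrank_eq_finrank hfr).2 hsurj
  have h1 : (⟨h, hh⟩ : V K t) = ⟨_, hmem fun σ => h (pp a σ)⟩ := by
    apply hinj
    ext τ
    rw [hE, hE]
    exact (hval (fun σ => h (pp a σ)) τ).symm
  have h2 := congrArg (fun v : V K t => (v : (Fin t → K) → K) y) h1
  exact h2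

/-- the number of solutions is at most `t!` if a linear form separates them -/
theorem card_le_of_sep {a : Fin t → Fin t → K} (ha : ∀ j, Function.Injective fun i => a i j)
    (b u : Fin t → K) (S : Finset (Fin t → K)) (hS : ∀ x ∈ S, F a b x = 0)
    (hu : Set.InjOn (fun x => u ⬝ᵥ x) (S : Set (Fin t → K))) : S.card ≤ t.factorial := by
  let N : Matrix (Equiv.Perm (Fin t)) (Equiv.Perm (Fin t)) K := fun π σ =>
    Bg a b u (pp a π) (pp a σ) / (D a (pp a σ) (pp a σ)).det
  let v : S → Equiv.Perm (Fin t) → K := fun p σ => (D a (pp a σ) p.1).det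
  have hev : ∀ p : S, Module.End.HasEigenvector (Matrix.toLin' N) (u ⬝ᵥ p.1) (v p) := by
    intro p
    rw [Module.End.hasEigenvector_iff, Module.End.mem_eigenspace_iff]
    constructor
    · ext π
      rw [Matrix.toLin'_apply, Pi.smul_apply, smul_eq_mul]
      have h1 := interp ha _ (Bg_mem a b u (pp a π)) p.1
      rw [Bg_solution a b u (pp a π) p.1 (hS _ p.2)] at h1
      rw [h1]
      rfl
    · intro h0
      have h1 := interp ha _ one_mem_V p.1
      have h2 : ∀ σ, (D a (pp a σ) p.1).det = 0 := fun σ => congrFun h0 σ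
      simp [h2] at h1
  have hli := Module.End.eigenvectors_linearIndependent' (Matrix.toLin' N)
    (fun p : S => u ⬝ᵥ p.1) (fun p q h => Subtype.ext (hu p.2 q.2 h)) v hev
  have h3 := hli.fintype_card_le_finrank
  rwa [Module.finrank_fintype_fun_eq_card, Fintype.card_perm, Fintype.card_fin,
    Fintype.card_coe] at h3

theorem exists_sep [Infinite K] (S : Finset (Fin t → K)) :
    ∃ u : Fin t → K, Set.InjOn (fun x => u ⬝ᵥ x) (S : Set (Fin t → K)) := by
  classical
  let P : (Fin t → K) → (Fin t → K) → Polynomial K := fun x y =>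
    ∑ s : Fin t, Polynomial.monomial (s : ℕ) (x s - y s)
  have hP : ∀ x y, x ≠ y → P x y ≠ 0 := by
    intro x y hxy h0
    apply hxy
    ext s
    have h1 := congrArg (fun q => Polynomial.coeff q (s : ℕ)) h0
    simp only [P, Polynomial.finsetSum_coeff, Polynomial.coeff_monomial, Polynomial.coeff_zero]
      at h1
    rw [Finset.sum_eq_single s] at h1
    · simpa [sub_eq_zero] using h1
    · intro r _ hr
      rw [if_neg]
      intro h
      exact hr (Fin.ext h)
    · intro h
      exact absurd (mem_univ _) h
  let Q : Polynomial K := ∏ q ∈ S.offDiag, P q.1 q.2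
  have hQ : Q ≠ 0 := by
    rw [Finset.prod_ne_zero_iff]
    intro q hq
    exact hP _ _ (mem_offDiag.1 hq).2.2
  obtain ⟨c, hc⟩ := Infinite.exists_notMem_finset Q.roots.toFinset
  rw [Multiset.mem_toFinset, Polynomial.mem_roots hQ, Polynomial.IsRoot.def] at hc
  refine ⟨fun s => c ^ (s : ℕ), ?_⟩
  intro x hx y hy hxy
  by_contra hne
  apply hc
  rw [Polynomial.eval_prod]
  apply Finset.prod_eq_zero (i := (x, y)) (mem_offDiag.2 ⟨hx, hy, hne⟩)
  simp only [P, Polynomial.eval_finsetSum, Polynomial.eval_monomial]
  have h2 : ∑ s : Fin t, (x s - y s) * c ^ (s : ℕ) =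
      (fun s : Fin t => c ^ (s : ℕ)) ⬝ᵥ x - (fun s : Fin t => c ^ (s : ℕ)) ⬝ᵥ y := by
    simp only [dotProduct]
    rw [← Finset.sum_sub_distrib]
    apply Finset.sum_congr rfl
    intro s _
    ring
  rw [h2, sub_eq_zero]
  exact hxy

/-- **The norm graph lemma** (Kollár, Rónyai, Szabó). -/
theorem card_le {a : Fin t → Fin t → K} (ha : ∀ j, Function.Injective fun i => a i j)
    (b : Fin t → K) (S : Finset (Fin t → K)) (hS : ∀ x ∈ S, ∀ i, ∏ j, (x j - a i j) = b i) :
    S.card ≤ t.factorial := by
  classical
  let ι := algebraMap K (AlgebraicClosure K)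
  have hι : Function.Injective ι := (algebraMap K (AlgebraicClosure K)).injective
  have : Infinite (AlgebraicClosure K) := IsAlgClosed.instInfinite
  let m : (Fin t → K) → (Fin t → AlgebraicClosure K) := fun x j => ι (x j)
  have hm : Function.Injective m := by
    intro x y h
    ext j
    exact hι (congrFun h j)
  obtain ⟨u, hu⟩ := exists_sep (S.image m)
  rw [← Finset.card_image_of_injective S hm]
  refine card_le_of_sep (a := fun i j => ι (a i j)) (fun j i i' h => ha j (hι h))
    (fun i => ι (b i)) u _ ?_ hu
  intro x hx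
  obtain ⟨y, hy, rfl⟩ := mem_image.1 hx
  ext i
  simp only [F, m, Pi.zero_apply]
  rw [← hS y hy i, map_prod]
  simp only [map_sub]
  ring

end Pool.Agent.T6.H75.NormLemma
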