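import Mathlib
import Pool.Agent.T6.H75.NormLemma

/-!
# Sets without many translates of a set of `t + 1` elements

The integers which encode the pairs `(x, N x)`, `x` a nonzero element of the field with `p ^ t`
elements and `N` the norm to the prime field, contain at most `t!` translates of any set of
`t + 1` integers.
-/

set_option autoImplicit false

namespace Pool.Agent.T6.H75.CSet

open Finset

/-! ### Digits -/

theorem digits_inj (B : ℕ) : ∀ (m : ℕ) (u v : ℕ → ℕ), (∀ i < m, u i < B) → (∀ i < m, v i < B) →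
    ∑ i ∈ range m, u i * B ^ i = ∑ i ∈ range m, v i * B ^ i → ∀ i < m, u i = v i := by
  intro m
  induction m with
  | zero => intro u v _ _ _ i hi; omega
  | succ m ih =>
    intro u v hu hv h
    rw [Finset.sum_range_succ', Finset.sum_range_succ'] at h
    have e : ∀ w : ℕ → ℕ, ∑ i ∈ range m, w (i + 1) * B ^ (i + 1) =
        B * ∑ i ∈ range m, w (i + 1) * B ^ i := by
      intro w
      rw [Finset.mul_sum]
      apply Finset.sum_congr rfl
      intro i _
      ring
    rw [e, e, pow_zero, mul_one, mul_one] at h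
    have h0 : u 0 = v 0 := by
      have h1 := congrArg (· % B) h
      simp only [Nat.mul_add_mod] at h1
      rwa [Nat.mod_eq_of_lt (hu 0 (by omega)), Nat.mod_eq_of_lt (hv 0 (by omega))] at h1
    have hB : 0 < B := lt_of_le_of_lt (Nat.zero_le _) (hu 0 (by omega))
    have h2 : ∑ i ∈ range m, u (i + 1) * B ^ i = ∑ i ∈ range m, v (i + 1) * B ^ i := by
      rw [h0] at h
      exact Nat.eq_of_mul_eq_mul_left hB (Nat.add_right_cancel h)
    intro i hi
    rcases i with _ | i
    · exact h0
    · exact ih (fun i => u (i + 1)) (fun i => v (i + 1)) (fun i hi => hu _ (by omega))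
        (fun i hi => hv _ (by omega)) h2 i (by omega)

theorem digits_lt (B : ℕ) : ∀ (m : ℕ) (u : ℕ → ℕ), (∀ i < m, u i < B) →
    ∑ i ∈ range m, u i * B ^ i < B ^ m := by
  intro m
  induction m with
  | zero => intro u _; simp
  | succ m ih =>
    intro u hu
    rw [Finset.sum_range_succ]
    have h1 := ih u fun i hi => hu i (by omega)
    have h2 := hu m (by omega)
    calc ∑ i ∈ range m, u i * B ^ i + u m * B ^ m < B ^ m + u m * B ^ m := by omega
      _ = (u m + 1) * B ^ m := by ring
      _ ≤ B * B ^ m := Nat.mul_le_mul_right _ h2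
      _ = B ^ (m + 1) := by ring

/-! ### The norm -/

variable (p : ℕ) [hp : Fact p.Prime] (t : ℕ)

/-- the norm to the prime field -/
noncomputable def Nm (x : GaloisField p t) : GaloisField p t := ∏ j : Fin t, x ^ p ^ (j : ℕ)

variable {p t}

theorem Nm_mul (x y : GaloisField p t) : Nm p t (x * y) = Nm p t x * Nm p t y := by
  simp only [Nm, mul_pow, Finset.prod_mul_distrib]

theorem Nm_ne {x : GaloisField p t} (hx : x ≠ 0) : Nm p t x ≠ 0 :=
  Finset.prod_ne_zero_iff.2 fun _ _ => pow_ne_zero _ hx

theorem Nm_pow (x : GaloisField p t) (k : ℕ) : Nm p t (x ^ k) = Nm p t x ^ k := by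
  simp only [Nm, ← Finset.prod_pow, ← pow_mul, mul_comm k]

theorem Nm_eq (x : GaloisField p t) : Nm p t x = x ^ (∑ j ∈ range t, p ^ j) := by
  rw [Nm, Finset.prod_pow_eq_pow_sum, Fin.sum_univ_eq_sum_range (fun j => p ^ j)]

theorem Nm_pow_sub_one (ht : t ≠ 0) {x : GaloisField p t} (hx : x ≠ 0) :
    Nm p t x ^ (p - 1) = 1 := by
  have : Fintype (GaloisField p t) := Fintype.ofFinite _
  rw [Nm_eq, ← pow_mul, Nat.geomSum_eq hp.out.two_le, Nat.div_mul_cancel]
  · have h := FiniteField.pow_card_sub_one_eq_one x hx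
    rwa [← Nat.card_eq_fintype_card, GaloisField.card p t ht] at h
  · simpa using Nat.sub_dvd_pow_sub_pow p 1 t

theorem exists_log (ht : t ≠ 0) : ∃ (e : GaloisField p t → ℕ) (η : GaloisField p t),
    (∀ x, e x < p) ∧ ∀ x, x ≠ 0 → Nm p t x = η ^ e x := by
  have : Fintype (GaloisField p t) := Fintype.ofFinite _
  obtain ⟨ζ, hζ⟩ := IsCyclic.exists_monoid_generator (α := (GaloisField p t)ˣ)
  have h1 : ∀ x : GaloisField p t, ∃ k : ℕ, k < p ∧ (x ≠ 0 → Nm p t x =
      Nm p t (ζ : GaloisField p t) ^ k) := by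
    intro x
    by_cases hx : x = 0
    · exact ⟨0, hp.out.pos, fun h => absurd hx h⟩
    · obtain ⟨k, hk⟩ := Submonoid.mem_powers_iff _ _ |>.1 (hζ (Units.mk0 x hx))
      refine ⟨k % (p - 1), ?_, fun _ => ?_⟩
      · have h2 := hp.out.two_le
        have h3 := Nat.mod_lt k (show 0 < p - 1 by omega)
        omega
      · have h4 : x = (ζ : GaloisField p t) ^ k := by
          have := congrArg (fun u : (GaloisField p t)ˣ => (u : GaloisField p t)) hk
          simp only [Units.val_pow_eq_pow_val, Units.val_mk0] at this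
          exact this.symm
        rw [h4, Nm_pow]
        conv_lhs => rw [← Nat.div_add_mod k (p - 1), pow_add, pow_mul,
          Nm_pow_sub_one ht ζ.ne_zero, one_pow, one_mul]
  choose e he using h1
  exact ⟨e, Nm p t (ζ : GaloisField p t), fun x => (he x).1, fun x => (he x).2⟩

/-! ### The encoding -/

/-- There is an encoding of the nonzero elements of the field with `p ^ t` elements by integers
less than `p (2 p) ^ t` for which equal sums of two codes mean equal sums and equal products of
norms. -/
theorem exists_code (ht : t ≠ 0) : ∃ code : GaloisField p t → ℕ,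
    (∀ x, code x < p * (2 * p) ^ t) ∧
    ∀ x y z w, x ≠ 0 → y ≠ 0 → z ≠ 0 → w ≠ 0 → code x + code y = code z + code w →
      x + y = z + w ∧ Nm p t x * Nm p t y = Nm p t z * Nm p t w := by
  obtain ⟨e, η, he, hη⟩ := exists_log (p := p) ht
  have hp0 : 0 < p := hp.out.pos
  let b : GaloisField p t ≃ₗ[ZMod p] (Fin t → ZMod p) := LinearEquiv.ofFinrankEq _ _ (by
    rw [GaloisField.finrank p ht, Module.finrank_fintype_fun_eq_card, Fintype.card_fin])
  let d : ℕ → GaloisField p t → ℕ := fun i x => if h : i < t then (b x ⟨i, h⟩).val else e x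
  have hd : ∀ i x, d i x < p := by
    intro i x
    simp only [d]
    split_ifs with h
    · exact ZMod.val_lt _
    · exact he x
  refine ⟨fun x => ∑ i ∈ range (t + 1), d i x * (2 * p) ^ i, ?_, ?_⟩
  · intro x
    simp only [Finset.sum_range_succ]
    have h1 := digits_lt (2 * p) t (fun i => d i x) (fun i _ => by
      have := hd i x
      omega)
    have h2 : d t x = e x := by simp [d]
    by_cases hx : d t x + 1 ≤ p
    · calc ∑ i ∈ range t, d i x * (2 * p) ^ i + d t x * (2 * p) ^ t
          < (2 * p) ^ t + d t x * (2 * p) ^ t := by omega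
        _ = (d t x + 1) * (2 * p) ^ t := by ring
        _ ≤ p * (2 * p) ^ t := Nat.mul_le_mul_right _ hx
    · have := hd t x
      omega
  · intro x y z w hx hy hz hw h
    simp only [← Finset.sum_add_distrib, ← add_mul] at h
    have h1 := digits_inj (2 * p) (t + 1) (fun i => d i x + d i y) (fun i => d i z + d i w)
      (fun i _ => by
        have := hd i x
        have := hd i y
        omega)
      (fun i _ => by
        have := hd i z
        have := hd i w
        omega) h
    constructor
    · apply b.injective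
      ext i
      have h2 := h1 i (by omega)
      simp only [d, i.2, dif_pos] at h2
      have h3 := congrArg (fun n : ℕ => (n : ZMod p)) h2
      simp only [Nat.cast_add, ZMod.natCast_val, ZMod.cast_id', id] at h3
      simpa using h3
    · have h2 := h1 t (by omega)
      simp only [d, lt_irrefl, dif_neg, not_false_eq_true] at h2
      rw [hη x hx, hη y hy, hη z hz, hη w hw, ← pow_add, ← pow_add, h2]

/-! ### The set -/

/-- For `t ≥ 1` and a prime number `p` there is a set of `p ^ t - 1` positive integers up to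
`p (2 p) ^ t` which contains at most `t!` translates of every set of `t + 1` integers. -/
theorem exists_set (p : ℕ) [hp : Fact p.Prime] (t : ℕ) (ht : t ≠ 0) : ∃ A : Finset ℤ,
    (∀ a ∈ A, 1 ≤ a ∧ a ≤ (p * (2 * p) ^ t : ℕ)) ∧ A.card = p ^ t - 1 ∧
    ∀ X K : Finset ℤ, X.card = t + 1 → (∀ x ∈ X, ∀ k ∈ K, x + k ∈ A) →
      K.card ≤ t.factorial := by
  classical
  have : Fintype (GaloisField p t) := Fintype.ofFinite _
  obtain ⟨code, hc1, hc2⟩ := exists_code (p := p) ht
  have hinj : ∀ x z : GaloisField p t, x ≠ 0 → z ≠ 0 → code x = code z → x = z := by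
    intro x z hx hz h
    have := (hc2 x z z z hx hz hz hz (by rw [h])).1
    exact add_right_cancel this
  let A : Finset ℤ := (univ.filter fun x : GaloisField p t => x ≠ 0).image
    fun x => (code x : ℤ) + 1
  refine ⟨A, ?_, ?_, ?_⟩
  · intro a ha
    obtain ⟨x, _, rfl⟩ := mem_image.1 ha
    have := hc1 x
    constructor
    · omega
    · push_cast
      have h2 : (code x : ℤ) < ((p * (2 * p) ^ t : ℕ) : ℤ) := by exact_mod_cast this
      push_cast at h2
      linarith
  · rw [Finset.card_image_of_injOn]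
    · rw [Finset.filter_ne', Finset.card_erase_of_mem (mem_univ _), Finset.card_univ,
        ← Nat.card_eq_fintype_card, GaloisField.card p t ht]
    · intro x hx z hz h
      rw [mem_coe, mem_filter] at hx hz
      apply hinj x z hx.2 hz.2
      simp only at h
      omega
  · intro X K hX hK
    have hex : ∀ x k : ℤ, x ∈ X → k ∈ K → ∃ f : GaloisField p t, f ≠ 0 ∧
        (code f : ℤ) + 1 = x + k := by
      intro x k hx hk
      obtain ⟨f, hf, hf2⟩ := mem_image.1 (hK x hx k hk)
      exact ⟨f, (mem_filter.1 hf).2, hf2⟩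
    choose! ξ h0 hc using hex
    have par : ∀ x x' k k', x ∈ X → x' ∈ X → k ∈ K → k' ∈ K →
        ξ x k + ξ x' k' = ξ x k' + ξ x' k ∧
        Nm p t (ξ x k) * Nm p t (ξ x' k') = Nm p t (ξ x k') * Nm p t (ξ x' k) := by
      intro x x' k k' hx hx' hk hk'
      apply hc2 _ _ _ _ (h0 _ _ hx hk) (h0 _ _ hx' hk') (h0 _ _ hx hk') (h0 _ _ hx' hk)
      have e1 := hc x k hx hk
      have e2 := hc x' k' hx' hk'
      have e3 := hc x k' hx hk'
      have e4 := hc x' k hx' hk
      omega
    rcases K.eq_empty_or_nonempty with rfl | ⟨k0, hk0⟩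
    · simp
    have hXne : X.Nonempty := by
      rw [← Finset.card_pos]
      omega
    obtain ⟨x0, hx0⟩ := hXne
    have hcard : (X.erase x0).card = t := by
      rw [Finset.card_erase_of_mem hx0]
      omega
    let eq : Fin t ≃ (X.erase x0) := (Finset.equivFinOfCardEq hcard).symm
    let r : Fin t → ℤ := fun i => (eq i : ℤ)
    have hr1 : ∀ i, r i ∈ X := fun i => (mem_erase.1 (eq i).2).2
    have hr2 : ∀ i, r i ≠ x0 := fun i => (mem_erase.1 (eq i).2).1
    have hr3 : Function.Injective r := fun i j h => eq.injective (Subtype.ext h)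
    let β : Fin t → GaloisField p t := fun i => ξ (r i) k0 - ξ x0 k0
    have hβ1 : ∀ i k, k ∈ K → ξ (r i) k = ξ x0 k + β i := by
      intro i k hk
      have := (par (r i) x0 k k0 (hr1 i) hx0 hk hk0).1
      simp only [β]
      linear_combination this
    have hβ0 : ∀ i, β i ≠ 0 := by
      intro i h
      rw [sub_eq_zero] at h
      have e1 := hc (r i) k0 (hr1 i) hk0
      have e2 := hc x0 k0 hx0 hk0
      rw [h] at e1
      exact hr2 i (by omega)
    have hβi : Function.Injective β := by
      intro i j h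
      have h' : ξ (r i) k0 = ξ (r j) k0 := sub_left_injective h
      have e1 := hc (r i) k0 (hr1 i) hk0
      have e2 := hc (r j) k0 (hr1 j) hk0
      rw [h'] at e1
      exact hr3 (by omega)
    let y : ℤ → Fin t → GaloisField p t := fun k j => ((ξ x0 k)⁻¹) ^ p ^ (j : ℕ)
    have hy : Set.InjOn y (K : Set ℤ) := by
      intro k hk k' hk' h
      have h1 := congrFun h ⟨0, Nat.pos_of_ne_zero ht⟩
      simp only [y, pow_zero, pow_one] at h1
      have h2 : ξ x0 k = ξ x0 k' := inv_injective h1
      have e1 := hc x0 k hx0 hk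
      have e2 := hc x0 k' hx0 hk'
      rw [h2] at e1
      omega
    rw [← Finset.card_image_of_injOn hy]
    refine NormLemma.card_le (a := fun i j => -((β i)⁻¹ ^ p ^ (j : ℕ))) ?_
      (fun i => Nm p t (ξ (r i) k0) / (Nm p t (β i) * Nm p t (ξ x0 k0))) _ ?_
    · intro j i i' h
      simp only [neg_inj] at h
      have h1 : (iterateFrobenius (GaloisField p t) p (j : ℕ)) (β i)⁻¹ =
          (iterateFrobenius (GaloisField p t) p (j : ℕ)) (β i')⁻¹ := by
        rw [iterateFrobenius_def, iterateFrobenius_def]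
        exact h
      exact hβi (inv_injective ((iterateFrobenius (GaloisField p t) p (j : ℕ)).injective h1))
    · intro z hz i
      obtain ⟨k, hk, rfl⟩ := mem_image.1 hz
      have h1 : ∀ j : Fin t, y k j - -((β i)⁻¹ ^ p ^ (j : ℕ)) =
          ((ξ x0 k)⁻¹ + (β i)⁻¹) ^ p ^ (j : ℕ) := by
        intro j
        rw [sub_neg_eq_add, add_pow_char_pow]
      simp only [h1]
      have h2 : (ξ x0 k)⁻¹ + (β i)⁻¹ = ξ (r i) k * ((β i)⁻¹ * (ξ x0 k)⁻¹) := by
        rw [hβ1 i k hk]
        have e1 := hβ0 i
        have e2 := h0 x0 k hx0 hk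
        field_simp
        ring
      have h3 : ∀ x : GaloisField p t, x ≠ 0 → Nm p t x⁻¹ = (Nm p t x)⁻¹ := by
        intro x hx
        apply eq_inv_of_mul_eq_one_left
        rw [← Nm_mul, inv_mul_cancel₀ hx]
        simp [Nm]
      change Nm p t ((ξ x0 k)⁻¹ + (β i)⁻¹) = _
      rw [h2, Nm_mul, Nm_mul, h3 _ (hβ0 i), h3 _ (h0 x0 k hx0 hk)]
      have h4 := (par (r i) x0 k k0 (hr1 i) hx0 hk hk0).2
      have e1 := Nm_ne (h0 x0 k hx0 hk)
      have e2 := Nm_ne (h0 x0 k0 hx0 hk0)
      have e3 := Nm_ne (hβ0 i)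
      field_simp
      linear_combination h4

end Pool.Agent.T6.H75.CSet
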